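import Pool.Agent.W5h26.HH.Cor

/-!
# The traces of Frobenius of almost all hypersurfaces, and the order of the pole

Let `X` be a smooth hypersurface of even dimension `2 j` over a number field `K`. At a prime `v` of good
reduction, with residue field of `q_v` elements, the trace of the Frobenius on `H^{2j}(X)` is
`t_v = #X(k_v) - ∑_{i ≠ j} q_v ^ i` (`0 ≤ i ≤ 2 j`). The L-function of `H^{2j}(X)` has a pole of order `r` at
`s = j + 1` if and only if `∑_{q_v ≤ X} t_v / q_v ^ (j + 1) - r log log X` has a limit for `X → ∞` (this is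
`MertensForm` for this problem). So the conjecture says that this limit exists for the rank `r` of the
group of the algebraic cycles of codimension `j`. For the generic member of a linear system of
hypersurfaces with a base locus of dimension `j`, the classes which are there for all members are the power
`H^j` of the hyperplane class and the `j`-dimensional components of the base locus.

Here the law is proved, uniformly in the range `X ≤ N ^ (1 / (2 j + 5))`, for almost all the hypersurfaces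
with integral coefficients of height at most `N`, in every linear system which separates the points outside
of a base locus `Z` of dimension at most `j`:

`∑_{X < q_v ≤ X'} t_v / q_v ^ (j + 1) = log log X' - log log X + ∑_{X < q_v ≤ X'} #Z(k_v) / q_v ^ (j + 1) + o(1)`.

In particular it is proved for all hypersurfaces of given degree (`r = 1`), and for all hypersurfaces of
degree `d > c` which contain `c` given coordinate subspaces of dimension `j` (`r = 1 + c`).

Proof. Pairs of different points outside of the base locus give independent conditions on the coefficients.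
This gives the average and the variance of `t_v` over the residue field. The reductions at different
primes are independent (Chinese remainder theorem), which gives the variances of the partial sums; a
maximal inequality along the fourth powers of the integers gives the uniformity in `X`. The main term is
Mertens' theorem for `K`.
-/

set_option autoImplicit false

namespace Pool.Agent.Results.MP_223b32_ag.AlmostAllHypersurfaces

open NumberField IsDedekindDomain Filter Topology

section defs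

variable {K : Type} [Field K] [NumberField K] {n : ℕ}

/-- The number `q_v` of elements of the residue field of the prime `v`. -/
noncomputable def q (v : HeightOneSpectrum (𝓞 K)) : ℕ := Ideal.absNorm v.asIdeal

/-- The value of the polynomial `F` at the vector `u` with coordinates in the residue field of `v`. -/
noncomputable def value (F : MvPolynomial (Fin n) (𝓞 K)) (v : HeightOneSpectrum (𝓞 K))
    (u : Fin n → 𝓞 K ⧸ v.asIdeal) : 𝓞 K ⧸ v.asIdeal :=
  MvPolynomial.eval₂ (Ideal.Quotient.mk v.asIdeal) u F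

/-- The number of the points with coordinates in the residue field of `v` of the closed subscheme of the
projective space given by the homogeneous equations in `Z`: the number of the nonzero solutions divided
by `q_v - 1`. -/
noncomputable def points (Z : Set (MvPolynomial (Fin n) (𝓞 K)))
    (v : HeightOneSpectrum (𝓞 K)) : ℝ :=
  (Nat.card {u : Fin n → 𝓞 K ⧸ v.asIdeal // u ≠ 0 ∧ ∀ F ∈ Z, value F v u = 0} : ℝ) / (q v - 1)

/-- `t_v = #X(k_v) - ∑_{0 ≤ i ≤ 2 j, i ≠ j} q_v ^ i` for the hypersurface `X : F = 0` of dimension `2 j`: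
the trace of the Frobenius at `v` on the cohomology group `H^{2j}` of the hypersurface, if it is smooth
over the residue field of `v`. -/
noncomputable def trace (j : ℕ) (F : MvPolynomial (Fin (2 * j + 2)) (𝓞 K))
    (v : HeightOneSpectrum (𝓞 K)) : ℝ :=
  points {F} v - ∑ i ∈ (Finset.range (2 * j + 1)).erase j, (q v : ℝ) ^ i

/-- `∑ t_v / q_v ^ (j + 1)` over the primes `v` with `q_v ≤ X`. -/
noncomputable def traceSum (j : ℕ) (F : MvPolynomial (Fin (2 * j + 2)) (𝓞 K)) (X : ℝ) : ℝ :=
  ∑ᶠ (v : HeightOneSpectrum (𝓞 K)) (_ : (q v : ℝ) ≤ X), trace j F v / (q v : ℝ) ^ (j + 1)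

/-- `∑ #Z(k_v) / q_v ^ (j + 1)` over the primes `v` with `q_v ≤ X`. -/
noncomputable def pointSum (j : ℕ) (Z : Set (MvPolynomial (Fin (2 * j + 2)) (𝓞 K))) (X : ℝ) : ℝ :=
  ∑ᶠ (v : HeightOneSpectrum (𝓞 K)) (_ : (q v : ℝ) ≤ X), points Z v / (q v : ℝ) ^ (j + 1)

variable {m : ℕ}

/-- The member `∑ h_i G_i` of a linear system. -/
noncomputable def member (G : Fin m → MvPolynomial (Fin n) (𝓞 K)) (h : Fin m → 𝓞 K) :
    MvPolynomial (Fin n) (𝓞 K) := ∑ i, MvPolynomial.C (h i) * G i

/-- The linear system separates the points outside of the base locus, over the residue fields of almost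
all primes `v`: if the values of the `G_i` at `u` are not all zero, and those at `w` are proportional to
them with a nonzero factor, then `w` is proportional to `u`. -/
def Separates (G : Fin m → MvPolynomial (Fin n) (𝓞 K)) : Prop :=
  ∀ᶠ v : HeightOneSpectrum (𝓞 K) in cofinite, ∀ u w : Fin n → 𝓞 K ⧸ v.asIdeal,
    (∃ i, value (G i) v u ≠ 0) → ∀ c : 𝓞 K ⧸ v.asIdeal, c ≠ 0 →
      (∀ i, value (G i) v w = c * value (G i) v u) → ∃ μ : 𝓞 K ⧸ v.asIdeal, w = μ • u

/-- The base locus has at most `C q_v ^ j` points over the residue fields of almost all primes `v` (its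
dimension is at most `j`). -/
def BaseDimensionLe (j : ℕ) (G : Fin m → MvPolynomial (Fin n) (𝓞 K)) : Prop :=
  ∃ C : ℝ, ∀ᶠ v : HeightOneSpectrum (𝓞 K) in cofinite,
    points (Set.range G) v ≤ C * (q v : ℝ) ^ j

/-- The exponents of the monomials of degree `d` which are not supported in one of the sets `S_a`. -/
def monomials {c : ℕ} (d : ℕ) (S : Fin c → Finset (Fin n)) : Set (Fin n →₀ ℕ) :=
  {s | s.degree = d ∧ ∀ a, ¬ s.support ⊆ S a}

variable {κ : Type}

/-- The coordinates of the `h_i` in the basis `b` of the integers of `K` are at most `N` in absolute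
value. -/
def InBox (b : Module.Basis κ ℤ (𝓞 K)) (N : ℕ) (h : Fin m → 𝓞 K) : Prop :=
  ∀ i j, |b.repr (h i) j| ≤ N

/-- The proportion of the `h` of height at most `N` with the property `P`. -/
noncomputable def proportion (b : Module.Basis κ ℤ (𝓞 K)) (N : ℕ) (P : (Fin m → 𝓞 K) → Prop) : ℝ :=
  (Nat.card {h : Fin m → 𝓞 K // InBox b N h ∧ P h} : ℝ) /
    (Nat.card {h : Fin m → 𝓞 K // InBox b N h} : ℝ)

/-- For every `ε > 0` there is an `X₀` such that for all large `N` the sums of the traces grow like `ρ`,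
with an error of at most `ε` uniformly for `X₀ ≤ X ≤ X' ≤ N ^ (1 / (2 j + 5))`, for all the hypersurfaces of
height at most `N` with the exception of a proportion of at most `ε`. -/
def Law (b : Module.Basis κ ℤ (𝓞 K)) (j : ℕ)
    (G : Fin m → MvPolynomial (Fin (2 * j + 2)) (𝓞 K)) (ρ : ℝ → ℝ) : Prop :=
  ∀ ε : ℝ, 0 < ε → ∃ X₀ : ℝ, 2 ≤ X₀ ∧ ∀ᶠ N : ℕ in atTop,
    1 - ε ≤ proportion b N fun h => ∀ X X' : ℝ, X₀ ≤ X → X ≤ X' → X' ^ (2 * j + 5) ≤ N →
      |(traceSum j (member G h) X' - traceSum j (member G h) X) - (ρ X' - ρ X)| ≤ ε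

end defs

open Pool.Agent.H921R2.TatePole (nm)

section proof

variable {K : Type} [Field K] [NumberField K] {m j : ℕ}

theorem points_one (F : MvPolynomial (Fin (2 * j + 2)) (𝓞 K)) (v : HeightOneSpectrum (𝓞 K)) :
    points {F} v = (Pool.Agent.W5h26.HH.zeros F v : ℝ) / ((nm v : ℝ) - 1) := by
  unfold points Pool.Agent.W5h26.HH.zeros
  simp only [Set.mem_singleton_iff, forall_eq]
  rfl

theorem points_base (G : Fin m → MvPolynomial (Fin (2 * j + 2)) (𝓞 K))
    (v : HeightOneSpectrum (𝓞 K)) : points (Set.range G) v = Pool.Agent.W5h26.HH.bas G v := by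
  unfold points Pool.Agent.W5h26.HH.bas
  congr 2
  refine Nat.card_congr (Equiv.subtypeEquivRight fun u => ?_)
  refine and_congr_right fun _ => ?_
  rw [Set.forall_mem_range, funext_iff]
  rfl

theorem sum_px (f : HeightOneSpectrum (𝓞 K) → ℝ) (X : ℝ) :
    ∑ᶠ (v : HeightOneSpectrum (𝓞 K)) (_ : (q v : ℝ) ≤ X), f v =
      ∑ v ∈ Pool.Agent.W5h26.CL.PX K X, f v :=
  finsum_cond_eq_sum_of_cond_iff (t := Pool.Agent.W5h26.CL.PX K X) _ fun {v} _ =>
    Pool.Agent.W5h26.CL.mem_PX.symm

theorem traceSum_eq (F : MvPolynomial (Fin (2 * j + 2)) (𝓞 K)) (X : ℝ) :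
    traceSum j F X = Pool.Agent.W5h26.HH.TX F X := by
  unfold traceSum Pool.Agent.W5h26.HH.TX
  rw [sum_px]
  refine Finset.sum_congr rfl fun v _ => ?_
  unfold trace Pool.Agent.W5h26.HH.oth
  rw [points_one]
  rfl

theorem pointSum_eq (G : Fin m → MvPolynomial (Fin (2 * j + 2)) (𝓞 K)) (X : ℝ) :
    pointSum j (Set.range G) X = ∑ v ∈ Pool.Agent.W5h26.CL.PX K X,
      Pool.Agent.W5h26.HH.bas G v / (nm v : ℝ) ^ (j + 1) := by
  unfold pointSum
  rw [sum_px]
  refine Finset.sum_congr rfl fun v _ => ?_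
  rw [points_base]
  rfl

theorem proportion_ge {κ : Type} [Fintype κ] [DecidableEq κ] (b : Module.Basis κ ℤ (𝓞 K))
    (N : ℕ) (P : (Fin m → 𝓞 K) → Prop) {ε : ℝ}
    (h : Pool.Agent.W5h26.CL.rmean (Pool.Agent.W5h26.CL.bx b m N) (fun h => by
      classical
      exact if P h then 0 else 1) ≤ ε) : 1 - ε ≤ proportion b N P := by
  classical
  unfold proportion
  rw [Nat.subtype_card ((Pool.Agent.W5h26.CL.bx b m N).filter P) (fun h => by
      rw [Finset.mem_filter, Pool.Agent.W5h26.CL.mem_bx]
      rfl),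
    Nat.subtype_card (Pool.Agent.W5h26.CL.bx b m N) (fun h => by
      rw [Pool.Agent.W5h26.CL.mem_bx]
      rfl)]
  have hne := Finset.card_pos.2 (Pool.Agent.W5h26.CL.bx_nonempty b m N)
  have hpos : (0 : ℝ) < (Pool.Agent.W5h26.CL.bx b m N).card := by exact_mod_cast hne
  unfold Pool.Agent.W5h26.CL.rmean at h
  rw [div_le_iff₀ hpos] at h
  rw [le_div_iff₀ hpos]
  have h1 : ∑ x ∈ Pool.Agent.W5h26.CL.bx b m N, (if P x then (0 : ℝ) else 1) =
      (((Pool.Agent.W5h26.CL.bx b m N).filter fun x => ¬ P x).card : ℝ) := by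
    rw [← Finset.sum_boole]
    refine Finset.sum_congr rfl fun x _ => ?_
    by_cases hx : P x <;> simp [hx]
  rw [h1] at h
  have h2 := Finset.card_filter_add_card_filter_not (s := Pool.Agent.W5h26.CL.bx b m N) P
  have h3 : (((Pool.Agent.W5h26.CL.bx b m N).filter P).card : ℝ) +
      ((Pool.Agent.W5h26.CL.bx b m N).filter fun x => ¬ P x).card =
        (Pool.Agent.W5h26.CL.bx b m N).card := by exact_mod_cast h2
  linarith

theorem law_of {κ : Type} [Fintype κ] [DecidableEq κ] (b : Module.Basis κ ℤ (𝓞 K))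
    {G : Fin m → MvPolynomial (Fin (2 * j + 2)) (𝓞 K)} (hG : Separates G)
    (hB : BaseDimensionLe j G) {ρ : ℝ → ℝ}
    (hρ : ∀ ε : ℝ, 0 < ε → ∃ X₀ : ℝ, 2 ≤ X₀ ∧ ∀ X X' : ℝ, X₀ ≤ X → X ≤ X' →
      |∑ v ∈ Pool.Agent.W5h26.HH.PI K ⌊X⌋₊ ⌊X'⌋₊,
        (Pool.Agent.W5h26.HH.bas G v / (nm v : ℝ) ^ (j + 1) + 1 / nm v) - (ρ X' - ρ X)| ≤ ε) :
    Law b j G ρ := by
  classical
  obtain ⟨C, hC⟩ := hB
  set S : Set (HeightOneSpectrum (𝓞 K)) := {v | ¬ ((∀ u w : Fin (2 * j + 2) → 𝓞 K ⧸ v.asIdeal,
    (∃ i, value (G i) v u ≠ 0) → ∀ c : 𝓞 K ⧸ v.asIdeal, c ≠ 0 →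
      (∀ i, value (G i) v w = c * value (G i) v u) → ∃ μ : 𝓞 K ⧸ v.asIdeal, w = μ • u) ∧
      points (Set.range G) v ≤ C * (q v : ℝ) ^ j)} with hS
  have hfin : S.Finite := Filter.eventually_cofinite.1 (hG.and hC)
  have h1 : ∀ v, v ∉ S → Pool.Agent.W5h26.HH.Sep (Pool.Agent.W5h26.HH.gv G v) := by
    intro v hv
    obtain ⟨h2, -⟩ := not_not.1 hv
    intro u w hu c hc hw
    obtain ⟨i, hi⟩ := Function.ne_iff.1 hu
    exact h2 u w ⟨i, hi⟩ c hc fun i => congrFun hw i
  have h2 : ∀ v : HeightOneSpectrum (𝓞 K), v ∉ S →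
      Pool.Agent.W5h26.HH.bas G v ≤ |C| * (nm v : ℝ) ^ j := by
    intro v hv
    obtain ⟨-, h3⟩ := not_not.1 hv
    rw [points_base] at h3
    have hq : (0 : ℝ) < nm v := Pool.Agent.W5h26.AO.nm_pos v
    exact h3.trans (mul_le_mul_of_nonneg_right (le_abs_self C) (pow_nonneg hq.le j))
  intro ε hε
  obtain ⟨X₀, h3, h4⟩ := Pool.Agent.W5h26.HH.law' b hfin h1 (abs_nonneg C) h2 hρ hε
  refine ⟨X₀, h3, ?_⟩
  filter_upwards [h4] with N hN
  refine proportion_ge b N _ (le_trans (le_of_eq ?_) hN)
  congr 1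
  funext h
  simp only [traceSum_eq]
  rfl

end proof

section coordinate

variable {K : Type} [Field K] [NumberField K] {m n c d : ℕ} {S : Fin c → Finset (Fin n)}

/-- The hypersurfaces of degree `d` which contain the coordinate subspaces `x_i = 0 (i ∉ S_a)`. -/
theorem mem_iff (e : Fin m ≃ monomials d S) (F : MvPolynomial (Fin n) (𝓞 K)) :
    (F.IsHomogeneous d ∧ ∀ a, F ∈ Ideal.span (MvPolynomial.X '' ((S a : Set (Fin n))ᶜ) :
      Set (MvPolynomial (Fin n) (𝓞 K)))) ↔
    ∃ h : Fin m → 𝓞 K, F = member (fun i => MvPolynomial.monomial (e i).1 1) h := by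
  classical
  constructor
  · rintro ⟨h1, h2⟩
    refine ⟨fun i => MvPolynomial.coeff (e i).1 F, ?_⟩
    unfold member
    refine MvPolynomial.ext _ _ fun s => ?_
    rw [MvPolynomial.coeff_sum]
    simp only [MvPolynomial.coeff_C_mul, MvPolynomial.coeff_monomial]
    by_cases hs : s ∈ monomials d S
    · rw [Finset.sum_eq_single (e.symm ⟨s, hs⟩)]
      · rw [Equiv.apply_symm_apply, if_pos rfl, mul_one]
      · intro i _ hi
        rw [if_neg, mul_zero]
        intro h3
        apply hi
        rw [Equiv.eq_symm_apply]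
        exact Subtype.ext h3
      · intro h3
        exact (h3 (Finset.mem_univ _)).elim
    · rw [Finset.sum_eq_zero]
      · by_contra h3
        apply hs
        refine ⟨?_, fun a ha => ?_⟩
        · have h4 := h1 h3
          rwa [Finsupp.degree_eq_weight_one]
        · obtain ⟨i, hi, hi'⟩ := MvPolynomial.mem_ideal_span_X_image.1 (h2 a) s
            (MvPolynomial.mem_support_iff.2 h3)
          exact hi (ha (Finsupp.mem_support_iff.2 hi'))
      · intro i _
        rw [if_neg, mul_zero]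
        rintro rfl
        exact hs (e i).2
  · rintro ⟨h, rfl⟩
    unfold member
    refine ⟨MvPolynomial.IsHomogeneous.sum _ _ _ fun i _ => ?_, fun a => ?_⟩
    · exact (MvPolynomial.isHomogeneous_monomial 1 (e i).2.1).C_mul _
    · refine Ideal.sum_mem _ fun i _ => Ideal.mul_mem_left _ _ ?_
      rw [MvPolynomial.mem_ideal_span_X_image]
      intro s hs
      rw [MvPolynomial.support_monomial, if_neg one_ne_zero, Finset.mem_singleton] at hs
      subst hs
      obtain ⟨l, hl, hl'⟩ := Finset.not_subset.1 ((e i).2.2 a)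
      exact ⟨l, hl', Finsupp.mem_support_iff.1 hl⟩

end coordinate

section coordinate2

variable {K : Type} [Field K] [NumberField K] {m j c d : ℕ} {S : Fin c → Finset (Fin (2 * j + 2))}

theorem gv_eq (e : Fin m ≃ Pool.Agent.W5h26.HH.MS d S) (v : HeightOneSpectrum (𝓞 K)) :
    Pool.Agent.W5h26.HH.gv (K := K) (fun i => MvPolynomial.monomial (e i).1 1) v =
      Pool.Agent.W5h26.HH.gm (k := 𝓞 K ⧸ v.asIdeal) (S := S) (d := d) e := by
  funext u i
  unfold Pool.Agent.W5h26.HH.gv
  rw [MvPolynomial.eval₂_monomial, map_one, one_mul]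
  rfl

theorem bas_card (e : Fin m ≃ Pool.Agent.W5h26.HH.MS d S) (hcd : c + 1 ≤ d) (v : HeightOneSpectrum (𝓞 K))
    [DecidableEq (𝓞 K ⧸ v.asIdeal)] :
    Pool.Agent.W5h26.HH.bas (K := K) (fun i => MvPolynomial.monomial (e i).1 1) v =
      ((Pool.Agent.W5h26.HH.UU (𝓞 K ⧸ v.asIdeal) S).card : ℝ) / ((nm v : ℝ) - 1) := by
  rw [← Pool.Agent.W5h26.HH.bas_eq, gv_eq]
  unfold Pool.Agent.W5h26.HH.bs Pool.Agent.W5h26.HH.ZZ
  rw [Pool.Agent.W5h26.HH.base_eq hcd, Pool.Agent.W5h26.HH.qq_nm]

theorem bas_near (e : Fin m ≃ Pool.Agent.W5h26.HH.MS d S) (hcd : c + 1 ≤ d) (hS : ∀ a, (S a).card = j + 1)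
    (hinj : Function.Injective S) (v : HeightOneSpectrum (𝓞 K)) :
    |Pool.Agent.W5h26.HH.bas (K := K) (fun i => MvPolynomial.monomial (e i).1 1) v /
      (nm v : ℝ) ^ (j + 1) - c / nm v| ≤ (2 * c + 2 * c ^ 2) * (nm v : ℝ) ^ (-2 : ℝ) := by
  classical
  rw [bas_card e hcd]
  have h1 := Pool.Agent.W5h26.HH.base_card (k := 𝓞 K ⧸ v.asIdeal) hS hinj
  rw [Pool.Agent.W5h26.HH.qq_nm] at h1
  have hq : (0 : ℝ) < nm v := Pool.Agent.W5h26.AO.nm_pos v
  have h2 : (nm v : ℝ) ^ (-2 : ℝ) = ((nm v : ℝ) ^ 2)⁻¹ := by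
    rw [Real.rpow_neg hq.le]
    norm_num
  rw [h2]
  exact h1

theorem coordinate_law {κ : Type} [Fintype κ] [DecidableEq κ] (b : Module.Basis κ ℤ (𝓞 K))
    (e : Fin m ≃ Pool.Agent.W5h26.HH.MS d S) (hcd : c + 1 ≤ d) (hS : ∀ a, (S a).card = j + 1)
    (hinj : Function.Injective S) : Law b j (fun i => MvPolynomial.monomial (e i).1 1)
      fun X => (1 + c) * Real.log (Real.log X) := by
  classical
  have hnear := bas_near (K := K) e hcd hS hinj
  refine law_of b (Filter.Eventually.of_forall fun v u w hu a ha hw => ?_)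
    ⟨c + (2 * c + 2 * c ^ 2), Filter.Eventually.of_forall fun v => ?_⟩ fun ε hε => ?_
  · have h1 : Pool.Agent.W5h26.HH.gv (K := K) (fun i => MvPolynomial.monomial (e i).1 1) v u ≠ 0 := by
      obtain ⟨i, hi⟩ := hu
      exact Function.ne_iff.2 ⟨i, hi⟩
    have h2 : Pool.Agent.W5h26.HH.gv (K := K) (fun i => MvPolynomial.monomial (e i).1 1) v w =
        a • Pool.Agent.W5h26.HH.gv (K := K) (fun i => MvPolynomial.monomial (e i).1 1) v u :=
      funext hw
    rw [gv_eq] at h1 h2
    exact Pool.Agent.W5h26.HH.gm_sep hcd u w h1 a ha h2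
  · rw [points_base]
    have h1 := hnear v
    have hq : (0 : ℝ) < nm v := Pool.Agent.W5h26.AO.nm_pos v
    have hq1 : (1 : ℝ) ≤ nm v := by
      have := Pool.Agent.H921R2.TatePole.two_le_nm v
      exact_mod_cast (by omega : 1 ≤ nm v)
    have h2 : (nm v : ℝ) ^ (-2 : ℝ) ≤ (nm v : ℝ)⁻¹ := by
      rw [← Real.rpow_neg_one]
      exact Real.rpow_le_rpow_of_exponent_le hq1 (by norm_num)
    have h3 := (abs_le.1 h1).2
    have hc0 : (0 : ℝ) ≤ 2 * c + 2 * c ^ 2 := by positivity
    have h4 : (2 * c + 2 * c ^ 2 : ℝ) * (nm v : ℝ) ^ (-2 : ℝ) ≤ (2 * c + 2 * c ^ 2) * (nm v : ℝ)⁻¹ :=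
      mul_le_mul_of_nonneg_left h2 hc0
    have h6 : (c : ℝ) / nm v = c * (nm v : ℝ)⁻¹ := rfl
    rw [h6] at h3
    have h5 := h3.trans h4
    rw [sub_le_iff_le_add, ← add_mul, div_le_iff₀ (pow_pos hq _)] at h5
    refine h5.trans (le_of_eq ?_)
    show _ = _ * (nm v : ℝ) ^ j
    rw [pow_succ]
    field_simp
    ring
  · exact Pool.Agent.W5h26.HH.main_c (Nat.cast_nonneg c) hnear hε

end coordinate2

/-- **The law for almost all hypersurfaces.** Let `K` be a number field, `b` a basis of the integers of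
`K` over `ℤ`, and `j ≥ 0`.

(1) Let `G_1, …, G_m` be homogeneous polynomials of degree `d` in `2 j + 2` variables over the integers of
`K`, such that the linear system `∑ h_i G_i` separates the points outside of the base locus
`Z : G_1 = … = G_m = 0`, and such that `Z` has dimension at most `j`. Then the law holds for the system, with
`ρ(X) = log log X + ∑_{q_v ≤ X} #Z(k_v) / q_v ^ (j + 1)`.

(2) Let `S_1, …, S_c` be different sets of `j + 1` variables, and `d > c`. The members of the linear system of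
the monomials of degree `d` which are not supported in one of the sets `S_a` are all the hypersurfaces of
degree `d` which contain the coordinate subspaces `Λ_a : x_i = 0 (i ∉ S_a)` of dimension `j` (all
hypersurfaces of degree `d`, for `c = 0`), and the law holds with `ρ(X) = (1 + c) log log X`. -/
theorem result (K : Type) [Field K] [NumberField K] (κ : Type) [Fintype κ]
    (b : Module.Basis κ ℤ (𝓞 K)) (j m d : ℕ) :
    (∀ G : Fin m → MvPolynomial (Fin (2 * j + 2)) (𝓞 K), (∀ i, (G i).IsHomogeneous d) →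
      Separates G → BaseDimensionLe j G →
        Law b j G fun X => Real.log (Real.log X) + pointSum j (Set.range G) X) ∧
    (∀ (c : ℕ) (S : Fin c → Finset (Fin (2 * j + 2))), c < d → Function.Injective S →
      (∀ a, (S a).card = j + 1) → ∀ e : Fin m ≃ monomials d S,
        (∀ F : MvPolynomial (Fin (2 * j + 2)) (𝓞 K),
          (F.IsHomogeneous d ∧ ∀ a, F ∈ Ideal.span (MvPolynomial.X ''
            ((S a : Set (Fin (2 * j + 2)))ᶜ) : Set (MvPolynomial (Fin (2 * j + 2)) (𝓞 K)))) ↔
          ∃ h : Fin m → 𝓞 K, F = member (fun i => MvPolynomial.monomial (e i).1 1) h) ∧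
        Law b j (fun i => MvPolynomial.monomial (e i).1 1) fun X =>
          (1 + c) * Real.log (Real.log X)) := by
  classical
  refine ⟨fun G _ hG hB => ?_, fun c S hcd hinj hS e => ⟨mem_iff e, ?_⟩⟩
  · refine law_of b hG hB fun ε hε => ?_
    obtain ⟨X₀, h1, h2⟩ := Pool.Agent.W5h26.HH.main_gen G hε
    refine ⟨X₀, h1, fun X X' hX hX' => ?_⟩
    simp only [pointSum_eq]
    exact h2 X X' hX hX'
  · exact coordinate_law b e hcd hS hinj

end Pool.Agent.Results.MP_223b32_ag.AlmostAllHypersurfaces
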