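import Pool.Agent.W5h93.EX.Pole

/-!
# The analytic Tate conjecture and the cubic hypersurfaces `T(x, y, z) = 1`

Let `k` be a finitely generated perfect field. For a smooth projective variety `X` over `k` and `j ≥ 0`
consider the function `u ↦ u^(rank A^j(X)) L(j + dim_a(k) + u)`, `u > 0`, where `L` is the L-function of
`H^(2j)(X)`, in the group of the functions modulo those with a finite nonzero limit as `u → 0`. The
conjecture for `X` and `j`, including the existence of the order, says that its class `δ(X)(j)` is
trivial. No continuation of the L-functions is assumed. The Laurent polynomials `∑ δ(X)(j) L^j` are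
compatible with blow-ups; so they extend to an additive invariant of all separated schemes of finite
type (Bittner in characteristic zero; Gillet and Soulé for finite fields, since `δ` is defined on the
Chow motives).

The conjecture for all varieties over `k` of dimension at most `n` is equivalent to `δ = 0` for the
smooth affine cubic hypersurfaces `T(x, y, z) = 1`, of arbitrary dimension, where `T` is a trilinear form
over `k` one of whose blocks of variables has at most `n + 2` variables. If `k` is a prime field then in
all dimensions the hypersurfaces `∑_{(i, j, l) ∈ H} x_i y_j z_l = 1` of the tripartite hypergraphs `H` are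
enough: over `ℚ` the irreducible smooth projective schemes are the varieties over all number fields, over
`𝔽_p` those over all finite fields of characteristic `p`. For blocks of at most three variables `δ = 0`.
-/

set_option autoImplicit false

open CategoryTheory AlgebraicGeometry Pool.Agent.Y116.UV Pool.Agent.W5h93.EV Pool.Agent.W5h93.EX

universe w

namespace Pool.Agent.Results.MP_223b32_ag.CubicHypersurfaces

/-- **The analytic Tate conjecture and trilinear forms.** -/
theorem result (k : Type) [Field k] [PerfectField k] (D : PoleData.{w} k) (Q : Sch k → Prop)
    (hQ : IsClass Q) (δ : Sch k → ℤ → Growth) (hδ : D.IsDefect Q δ) :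
    Reduces Q D.Holds (Vanish δ) ∧
      (D.Ends Q → ModelsIn Q 1 → ForForms (Vanish δ) 3) := by
  have h : Reduces Q D.Holds (Vanish δ) :=
    reduces (bnd_additive hδ.additive) hQ fun _ hX => pole_iff hδ hX
  exact ⟨h, fun hD hM => (h.dim_iff_forms 1 hM).mp (pole_low hQ hD)⟩

end Pool.Agent.Results.MP_223b32_ag.CubicHypersurfaces
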