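import Pool.Agent.W5h21.TE.Main
import Pool.Agent.Y707.PH.Defs

/-!
# Tate's conjecture on the poles as an asymptotic law for finite products and sums

Let `k` be a finitely generated field of characteristic zero, `X` a smooth projective variety over `k`,
`j ≥ 0`, and let `U = Spec B` be an affine integral scheme of finite type over `ℤ` with the function field
`k`, over which `X` has a smooth projective model.  The L-function `L(s)` of Q1 is the Euler product over
the closed points `x` of `U`, and `s₀ = j + dim_a(k)` is the edge of the half-plane of absolute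
convergence.  In Q1 the order of the pole of `L` at `s₀` is the integer `r` such that
`(s - s₀)^r L(s)` has a finite nonzero limit for `s → s₀+` along the reals; no continuation is assumed.

We prove, without any hypothesis about `L`, that this number `r` can be read off from the finite partial
products of the Euler product at the point `s₀`, and from the finite sums of the traces of the Frobenius:
`r` is the order of the pole if and only if

`∏_{N(x) ≤ T} det(1 - Frob_x N(x)^{-s₀} | H^{2j})⁻¹ ~ C (log T)^r` for some `C ≠ 0`,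

and if and only if `∑_{N(x) ≤ T} Tr(Frob_x | H^{2j}) N(x)^{-s₀} - r log log T` converges.  The constants
are related by `C = e^{γ r} lim (s - s₀)^r L(s)`.  So Q1 for `X` and `j` is the same as each of these laws
with `r = rank A^j(X)`: this is the analogue of Mertens' theorem (`X` a point and `j = 0`), and of the
original form of the conjecture of Birch and Swinnerton-Dyer.  For comparison, the law
`∑_{N(x) ≤ T} Tr(Frob_x) N(x)^{-j} ~ r · (number of the x with N(x) ≤ T)` is equivalent to Q1 only if
something is known about `L` at the other points of the line `Re s = s₀`.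

All this is proved for all points `s₀ + iθ` of the line and complex exponents `ρ` in place of `r`.
-/

set_option autoImplicit false

namespace Pool.Agent.Results.MP_223b32_ag.MertensForm

open Filter Topology

section
variable {B : Type} [CommRing B]

/-- The number `N(x)` of elements of the residue field of the closed point `x` of `Spec B`. -/
noncomputable def norm (x : MaximalSpectrum B) : ℕ := Nat.card (B ⧸ x.asIdeal)

/-- `β x` is, for all closed points `x` of `Spec B`, the multiset of the `b` eigenvalues of the geometric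
Frobenius on `H^i` of the fibre over `x` of the projective family, of relative dimension at most `d`,
defined by the set `X` of homogeneous polynomials over `B`. -/
def IsFrobenius {n : ℕ} (X : Set (MvPolynomial (Fin n) B)) (d i b : ℕ)
    (β : MaximalSpectrum B → Multiset ℂ) : Prop :=
  ∀ (x : MaximalSpectrum B) (κ : Type) [Field κ] (ψ : B →+* κ), Function.Surjective ψ →
    RingHom.ker ψ = x.asIdeal →
    Pool.Agent.Y707.PH.IsEigen X d i ψ (β x) ∧ (β x).card = b

/-- The Euler factor `det(1 - Frob_x N(x)^{-s})⁻¹`. -/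
noncomputable def factor (β : MaximalSpectrum B → Multiset ℂ) (s : ℂ) (x : MaximalSpectrum B) : ℂ :=
  ((β x).map fun z => (1 - z * (norm x : ℂ) ^ (-s))⁻¹).prod

/-- The L-function. -/
noncomputable def LFun (β : MaximalSpectrum B → Multiset ℂ) (s : ℂ) : ℂ :=
  ∏' x : MaximalSpectrum B, factor β s x

/-- The product of the Euler factors with `N(x) ≤ T`. -/
noncomputable def product (β : MaximalSpectrum B → Multiset ℂ) (s : ℂ) (T : ℝ) : ℂ :=
  ∏ᶠ (x : MaximalSpectrum B) (_ : (norm x : ℝ) ≤ T), factor β s x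

/-- The sum of `Tr(Frob_x) N(x)^{-s}` for `N(x) ≤ T`. -/
noncomputable def traceSum (β : MaximalSpectrum B → Multiset ℂ) (s : ℂ) (T : ℝ) : ℂ :=
  ∑ᶠ (x : MaximalSpectrum B) (_ : (norm x : ℝ) ≤ T), (β x).sum * (norm x : ℂ) ^ (-s)

/-- `L(s + ε) ~ c ε^{-ρ}` for `ε → 0+`. -/
def Pole (β : MaximalSpectrum B → Multiset ℂ) (s ρ c : ℂ) : Prop :=
  Tendsto (fun ε : ℝ => (ε : ℂ) ^ ρ * LFun β (s + ε)) (𝓝[>] 0) (𝓝 c)

/-- The product of the Euler factors with `N(x) ≤ T` is `~ c (log T)^ρ` for `T → ∞`. -/
def ProductLaw (β : MaximalSpectrum B → Multiset ℂ) (s ρ c : ℂ) : Prop :=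
  Tendsto (fun T : ℝ => product β s T * (Real.log T : ℂ) ^ (-ρ)) atTop (𝓝 c)

/-- The sum of `Tr(Frob_x) N(x)^{-s}` for `N(x) ≤ T`, minus `ρ log log T`, converges. -/
def SumLaw (β : MaximalSpectrum B → Multiset ℂ) (s ρ : ℂ) : Prop :=
  ∃ S : ℂ, Tendsto (fun T : ℝ => traceSum β s T - ρ * (Real.log (Real.log T) : ℂ)) atTop (𝓝 S)

end

theorem result (k : Type) [Field k] [CharZero k] (B : Type) [CommRing B] [IsDomain B] [Algebra B k]
    [IsFractionRing B k] [Algebra.FiniteType ℤ B] (e : ℕ) (he : Algebra.trdeg ℚ k = e)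
    (n d j b : ℕ) (X : Set (MvPolynomial (Fin n) B)) (β : MaximalSpectrum B → Multiset ℂ)
    (hβ : IsFrobenius X d (2 * j) b β) :
    -- finitely many closed points of bounded norm; the Euler product converges
    (∀ T : ℝ, {x : MaximalSpectrum B | (norm x : ℝ) ≤ T}.Finite) ∧
    (∀ s : ℂ, (j : ℝ) + (e + 1) < s.re → Multipliable (factor β s)) ∧
    -- the laws at the edge
    ∀ (θ : ℝ) (ρ : ℂ),
      (∀ c : ℂ, c ≠ 0 → (Pole β ((j : ℂ) + (e + 1) + θ * Complex.I) ρ c ↔
        ProductLaw β ((j : ℂ) + (e + 1) + θ * Complex.I) ρ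
          (c * Complex.exp (Real.eulerMascheroniConstant * ρ)))) ∧
      ((∃ c : ℂ, c ≠ 0 ∧ Pole β ((j : ℂ) + (e + 1) + θ * Complex.I) ρ c) ↔
        SumLaw β ((j : ℂ) + (e + 1) + θ * Complex.I) ρ) := by
  haveI := Pool.Agent.W5h21.TE.finResB (B := B)
  obtain ⟨C₀, hC₀⟩ := Pool.Agent.W5h21.TE.homBdB (B := B) (k := k) he
  have hpure : Pool.Agent.W5h21.TE.Pure β j (b : ℝ) := by
    refine ⟨fun y z hz => ?_, fun y => ?_⟩
    · obtain ⟨h1, -⟩ := hβ y (Pool.Agent.W385.CP.Rs y) (Ideal.Quotient.mk y.asIdeal)
        Ideal.Quotient.mk_surjective Ideal.mk_ker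
      have h2 := h1.norm hz
      rw [h2]
      change ((Pool.Agent.W385.CP.qn y : ℕ) : ℝ) ^ (((2 * j : ℕ) : ℝ) / 2) = _
      have h3 : ((2 * j : ℕ) : ℝ) / 2 = (j : ℝ) := by
        push_cast
        ring
      rw [h3, Real.rpow_natCast]
    · obtain ⟨-, h2⟩ := hβ y (Pool.Agent.W385.CP.Rs y) (Ideal.Quotient.mk y.asIdeal)
        Ideal.Quotient.mk_surjective Ideal.mk_ker
      rw [h2]
  have hL : ∀ s : ℂ, (j : ℝ) + e + 1 < s.re → HasProd (fun y : MaximalSpectrum B =>
      ((β y).map fun z => (1 - z * ((Pool.Agent.W385.CP.qn y : ℕ) : ℂ) ^ (-s))⁻¹).prod)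
      (LFun β s) := by
    intro s hs
    exact (Pool.Agent.W5h21.TE.hasProdG e C₀ hpure (Nat.cast_nonneg b) hs).multipliable.hasProd
  refine ⟨fun T => Pool.Agent.W5h21.TB.finY e C₀ T, fun s hs => (hL s (by linarith)).multipliable,
    fun θ ρ => ?_⟩
  have hs : ((j : ℂ) + (e + 1) + θ * Complex.I).re = j + e + 1 := by
    simp
    ring
  exact ⟨fun c hc => Pool.Agent.W5h21.TE.main_product e C₀ hpure (Nat.cast_nonneg b) hL hs ρ hc,
    Pool.Agent.W5h21.TE.main_sum e C₀ hpure (Nat.cast_nonneg b) hL hs ρ⟩

end Pool.Agent.Results.MP_223b32_ag.MertensForm
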