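import Pool.Agent.W5h88.TP.Eul
import Pool.Agent.W5h26.AO.Box
import Pool.Agent.W5h26.AO.Chr

/-!
# The order of the pole for almost all products of curves over a number field

Let `K` be any number field and `X_h = C_{1,h_1} × … × C_{R,h_R}`, where `C_{i,h_i}` runs through all curves
`y² = f(x)`, `f` monic of degree `2 g_i + 1` over the integers of `K`, through `r_i` given points with
different `x` and with `y ≠ 0` (for `g_i = 1`, `r_i = 0`: all elliptic curves
`y² = x³ + h_2 x² + h_1 x + h_0`). The classes of the products of points generate a subspace of dimension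
`C(R, j)` of `A^j(X_h) ⊗ ℚ`; it should be everything for almost all `h`, so that the order of the pole of the
L-function of `H^{2j}(X_h)` at `s = j + 1` should be `C(R, j)`.

* The L-function is defined at every point `ω` of the compact space of the systems of residues of the
  parameters. At almost every `ω` its pole at `s = j + 1` has the order `C(R, j)` exactly: `(s - j - 1)^{C(R, j)}
  L_ω(s)` continues to an analytic function in `Re s > j + 1 / 2` which has no zeros in `Re s ≥ j + 1`. The
  L-function of the complement of the classes of products of points continues without zeros to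
  `Re s > j + 1 / 2`, and this line is its natural boundary.
* The order of the pole can differ from `C(R, j)` only in a non-uniform way: for every `ε > 0` there is a
  `B` such that for all `δ > 0`, for all `h` outside a set of upper density at most `ε`,
  `B⁻¹ ≤ |(s - j - 1)^{C(R, j)} L_h(s)| ≤ B` for `Re s ≥ j + 1 + δ` (in a bounded region), and for all `B` and `η > 0`
  the set of the `h` such that for some real `ρ` with `|ρ - C(R, j)| ≥ η`, `x^ρ |L_h(j + 1 + x)|` is between `B⁻¹`
  and `B` for `0 < x ≤ 1` has density zero.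
-/

set_option autoImplicit false

namespace Pool.Agent.Results.MP_223b32_ag.ProductsInFamilies

open NumberField IsDedekindDomain Polynomial Filter Topology MeasureTheory

/-- The polynomial `a + (h_0 + h_1 X + … + h_{n-1} X ^ (n-1)) ∏ (X - α_j)`. -/
noncomputable def member {A : Type} [CommRing A] {r n : ℕ} (a : A[X]) (α : Fin r → A)
    (h : Fin n → A) : A[X] :=
  a + (∑ i : Fin n, C (h i) * X ^ (i : ℕ)) * ∏ j, (X - C (α j))

/-- A family of curves over the number field `K`: the curves `y² = f(x)` of genus `g`, where `f` is a monic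
polynomial of degree `2 g + 1` over the integers of `K` with `f(α_j) = y_j²` for `1 ≤ j ≤ r`, for `r ≤ 2 g - 1` given
points with different `α_j` and with `y_j ≠ 0`; `a` is one such `f`, and the others are
`f_h = a + (h_0 + … + h_{n+1} X ^ (n+1)) ∏ (X - α_j)` with `n + 2 + r = 2 g + 1`. -/
structure Family (K : Type) [Field K] [NumberField K] where
  /-- the genus -/
  g : ℕ
  /-- the number of the given points -/
  r : ℕ
  /-- the number of the free coefficients is `n + 2` -/
  n : ℕ
  /-- a member -/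
  a : (𝓞 K)[X]
  /-- the given values of `x` -/
  α : Fin r → 𝓞 K
  /-- the given values of `y` -/
  y : Fin r → 𝓞 K
  count : n + 2 + r = 2 * g + 1
  monic : a.Monic
  degree : a.natDegree = 2 * g + 1
  injective : Function.Injective α
  point : ∀ j, a.eval (α j) = y j ^ 2
  ne_zero : ∀ j, y j ≠ 0

section curves

variable {K : Type} [Field K] [NumberField K]

/-- The residue field of the prime `v`. -/
noncomputable instance residueField (v : HeightOneSpectrum (𝓞 K)) : Field (𝓞 K ⧸ v.asIdeal) :=
  Pool.Agent.R409.RA.fieldQuot v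

/-- All the subsets of the residue fields are measurable. -/
instance residueMeas (v : HeightOneSpectrum (𝓞 K)) : MeasurableSpace (𝓞 K ⧸ v.asIdeal) := ⊤

variable (K) in
/-- A system of residue polynomials: a polynomial over the residue field of `v` for every prime `v`
of `K`. -/
abbrev System : Type := (v : HeightOneSpectrum (𝓞 K)) → (𝓞 K ⧸ v.asIdeal)[X]

/-- The system of the reductions of a polynomial over the integers of `K`. -/
noncomputable def reductions (f : (𝓞 K)[X]) : System K :=
  fun v => f.map (Ideal.Quotient.mk v.asIdeal)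

/-- The number of the points with coordinates in the field with `q_v ^ m` elements of the affine curve
`y² = F_v(x)` over the residue field of `v`, which has `q_v` elements. -/
noncomputable def points (F : System K) (v : HeightOneSpectrum (𝓞 K)) (m : ℕ) : ℕ :=
  Nat.card {P : AlgebraicClosure (𝓞 K ⧸ v.asIdeal) × AlgebraicClosure (𝓞 K ⧸ v.asIdeal) //
    P.1 ^ (Ideal.absNorm v.asIdeal ^ m) = P.1 ∧ P.2 ^ (Ideal.absNorm v.asIdeal ^ m) = P.2 ∧
      P.2 ^ 2 = aeval P.1 (F v)}

/-- The trace of the `m`-th power of the Frobenius at `v` on the first cohomology of the curve. -/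
noncomputable def trace (F : System K) (v : HeightOneSpectrum (𝓞 K)) (m : ℕ) : ℤ :=
  (Ideal.absNorm v.asIdeal : ℤ) ^ m - points F v m

variable {R : ℕ}

/-- The product of the curves `y² = F_{i,v}(x)` is smooth: the residue characteristic is odd and the
`F_{i,v}` are separable. -/
def IsGood (F : Fin R → System K) (v : HeightOneSpectrum (𝓞 K)) : Prop :=
  (2 : 𝓞 K) ∉ v.asIdeal ∧ ∀ i, (F i v).Separable

/-- The trace of the `m`-th power of the Frobenius at `v` on the cohomology in degree `2 j` of the
product of the curves: by the formula of Künneth the sum over the choices of degrees `e_i` with sum `2 j`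
of the products of the traces on the cohomology of the curves in the degrees `e_i`. -/
noncomputable def traceH (j : ℕ) (F : Fin R → System K) (v : HeightOneSpectrum (𝓞 K)) (m : ℕ) : ℤ :=
  ∑ e : Fin R → Fin 3, if ∑ i, (e i : ℕ) = 2 * j then
    ∏ i, (if e i = 0 then 1 else if e i = 1 then trace (F i) v m else
      (Ideal.absNorm v.asIdeal : ℤ) ^ m) else 0

/-- The Euler factor `det(1 - Frob_v q_v^{-s})⁻¹ = exp(∑_{m ≥ 1} tr(Frob_v ^ m) q_v^{-m s} / m)` of the
cohomology in degree `2 j`. -/
noncomputable def eulerFactor (j : ℕ) (F : Fin R → System K) (v : HeightOneSpectrum (𝓞 K)) (s : ℂ) :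
    ℂ :=
  Complex.exp (∑' m : ℕ, (traceH j F v (m + 1) : ℂ) *
    ((Ideal.absNorm v.asIdeal : ℂ) ^ (-s)) ^ (m + 1) / (m + 1))

/-- The L-function of the cohomology in degree `2 j` of the product of the curves, with the Euler
factors at the primes where the given equations have good reduction. -/
noncomputable def LFun (j : ℕ) (F : Fin R → System K) (s : ℂ) : ℂ :=
  ∏' v : {v : HeightOneSpectrum (𝓞 K) // IsGood F v}, eulerFactor j F v.1 s

/-- The Euler factor of the complement of the classes of the products of points, which are `R.choose j`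
classes of type `ℚ(-j)`. -/
noncomputable def eulerPart (j : ℕ) (F : Fin R → System K) (v : HeightOneSpectrum (𝓞 K)) (s : ℂ) :
    ℂ :=
  Complex.exp (∑' m : ℕ, ((traceH j F v (m + 1) : ℂ) -
    (R.choose j : ℂ) * (Ideal.absNorm v.asIdeal : ℂ) ^ ((m + 1) * j)) *
    ((Ideal.absNorm v.asIdeal : ℂ) ^ (-s)) ^ (m + 1) / (m + 1))

/-- The L-function of the complement. -/
noncomputable def LPart (j : ℕ) (F : Fin R → System K) (s : ℂ) : ℂ :=
  ∏' v : {v : HeightOneSpectrum (𝓞 K) // IsGood F v}, eulerPart j F v.1 s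

variable (𝓕 : Fin R → Family K)

/-- The parameters of the products: the free coefficients of the `R` polynomials. -/
abbrev Param : Type := (i : Fin R) → Fin ((𝓕 i).n + 2) → 𝓞 K

/-- The systems of residues of the parameters: `R` vectors over the residue field of `v` for every prime
`v` of `K`. -/
abbrev Point : Type :=
  (v : HeightOneSpectrum (𝓞 K)) → (i : Fin R) → Fin ((𝓕 i).n + 2) → 𝓞 K ⧸ v.asIdeal

/-- The product of the uniform probability measures. -/
noncomputable def prob : Measure (Point 𝓕) :=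
  Measure.infinitePi fun _ => ProbabilityTheory.uniformOn Set.univ

/-- The residues of the parameters `h`. -/
def integral (h : Param 𝓕) : Point 𝓕 := fun v i k => Ideal.Quotient.mk v.asIdeal (h i k)

/-- The systems of residue polynomials at a point. -/
noncomputable def memberAt (ω : Point 𝓕) : Fin R → System K :=
  fun i v => member ((𝓕 i).a.map (Ideal.Quotient.mk v.asIdeal))
    (fun j => Ideal.Quotient.mk v.asIdeal ((𝓕 i).α j)) (ω v i)

/-- The systems of the reductions of the members with the parameters `h`. -/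
noncomputable def members (h : Param 𝓕) : Fin R → System K :=
  fun i => reductions (member (𝓕 i).a (𝓕 i).α (h i))

end curves

/-- `L` has no meromorphic continuation to a neighbourhood of any point of the line `Re s = b`. -/
def NaturalBoundary (b : ℝ) (L : ℂ → ℂ) : Prop := ∀ t : ℝ, ¬ ∃ H : ℂ → ℂ,
  MeromorphicAt H ((b : ℂ) + t * Complex.I) ∧
    ∀ᶠ s in 𝓝 ((b : ℂ) + t * Complex.I), b < s.re → H s = L s

section mean

open Classical in
/-- `F` is a Følner sequence of the abelian group `A`: a sequence of nonempty finite sets such that for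
every `a` the proportion of the `x` in `F k` for which `x + a` is not in `F k` tends to `0`. -/
def IsFolner {A : Type} [AddCommGroup A] (F : ℕ → Finset A) : Prop :=
  (∀ k, (F k).Nonempty) ∧ ∀ a : A, Tendsto (fun k =>
    (((F k).filter fun x => x + a ∉ F k).card : ℝ) / ((F k).card : ℝ)) atTop (𝓝 0)

open Classical in
/-- The lower density of `E` is at least `d`: for every Følner sequence `F` and `ε > 0` the proportion of
the elements of `E` in `F k` is at least `d - ε` for large `k`. -/
def LowerDensity {A : Type} [AddCommGroup A] (E : Set A) (d : ℝ) : Prop :=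
  ∀ F : ℕ → Finset A, IsFolner F → ∀ ε : ℝ, 0 < ε → ∀ᶠ k in atTop,
    d - ε ≤ (((F k).filter fun x => x ∈ E).card : ℝ) / ((F k).card : ℝ)

open Classical in
theorem lower_of {A : Type} [AddCommGroup A] {E : Set A} {d : ℝ}
    (h : ∀ ε : ℝ, 0 < ε → ∃ G : A → Prop, (∀ x, G x → x ∈ E) ∧ ∀ F : ℕ → Finset A, IsFolner F →
      ∀ᶠ k in atTop, (d - ε) * ((F k).card : ℝ) ≤ (((F k).filter G).card : ℝ)) :
    LowerDensity E d := by
  intro F hF ε hε
  obtain ⟨G, h1, h2⟩ := h ε hε
  filter_upwards [h2 F hF] with k hk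
  have hc : (0 : ℝ) < (F k).card := by exact_mod_cast Finset.card_pos.2 (hF.1 k)
  rw [le_div_iff₀ hc]
  refine hk.trans (Nat.cast_le.2 (Finset.card_le_card fun x hx => ?_))
  rw [Finset.mem_filter] at hx ⊢
  exact ⟨hx.1, h1 x hx.2⟩

end mean

/-- the family, for the library -/
def toFam {K : Type} [Field K] [NumberField K] (F : Family K) : Pool.Agent.W5h88.TP.Fam K :=
  ⟨F.g, F.r, F.n, F.a, F.α, F.y, F.count, F.monic, F.degree, F.injective, F.point, F.ne_zero⟩

/-- **The order of the pole for products of curves.** Let `K` be a number field, `𝓕_1, …, 𝓕_R` families of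
curves over `K`, and `0 < j < R`.

(1) The members of the families are all curves `y² = f(x)`, `f` monic of degree `2 g_i + 1` over the integers
of `K` with `f(α_k) = y_k²` for all `k`, and the system of the reductions of the members with the parameters
`h` is the system at the point `integral h`.

(2) At every point `ω` the Euler products converge for `Re s > j + 1`.

(3) At almost all `ω` the function `(s - j - 1)^{C(R, j)} L_ω(s)` continues to an analytic function in
`Re s > j + 1 / 2` which has no zeros in `Re s ≥ j + 1`; so the pole at `s = j + 1` has the order `C(R, j)`, and there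
are no other poles and no zeros on the line `Re s = j + 1`.

(4) At almost all `ω` the L-function of the complement of the classes of the products of points
continues to an analytic function without zeros in `Re s > j + 1 / 2`, and the line `Re s = j + 1 / 2` is its
natural boundary.

(5) For all `A` and `ε > 0` there is a `B > 0` such that for all `δ > 0` the set of the `h` with
`B⁻¹ ≤ |(s - j - 1)^{C(R, j)} L_h(s)| ≤ B` for `j + 1 + δ ≤ Re s ≤ j + 2`, `|Im s| ≤ A` has lower density at least
`1 - ε`.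

(6) For all `B` and `η > 0` the set of the `h` such that there is a real `ρ` with `|ρ - C(R, j)| ≥ η` and
`B⁻¹ ≤ x^ρ |L_h(j + 1 + x)| ≤ B` for `0 < x ≤ 1` has density zero (its complement has lower density `1`).

(7) There are Følner sequences for the parameters. -/
theorem result (K : Type) [Field K] [NumberField K] (R : ℕ) (𝓕 : Fin R → Family K) (j : ℕ)
    (hj : 0 < j) (hjR : j < R) :
    ((∀ (i : Fin R) (f : (𝓞 K)[X]), (f.Monic ∧ f.natDegree = 2 * (𝓕 i).g + 1 ∧
        ∀ k, f.eval ((𝓕 i).α k) = (𝓕 i).y k ^ 2) ↔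
          ∃ h : Fin ((𝓕 i).n + 2) → 𝓞 K, f = member (𝓕 i).a (𝓕 i).α h) ∧
      ∀ h : Param 𝓕, members 𝓕 h = memberAt 𝓕 (integral 𝓕 h)) ∧
    (∀ (ω : Point 𝓕) (s : ℂ), j + 1 < s.re →
      Multipliable (fun v : {v : HeightOneSpectrum (𝓞 K) // IsGood (memberAt 𝓕 ω) v} =>
        eulerFactor j (memberAt 𝓕 ω) v.1 s) ∧
      Multipliable (fun v : {v : HeightOneSpectrum (𝓞 K) // IsGood (memberAt 𝓕 ω) v} =>
        eulerPart j (memberAt 𝓕 ω) v.1 s)) ∧
    (∀ᵐ ω ∂(prob 𝓕), ∃ H : ℂ → ℂ, DifferentiableOn ℂ H {s | (j : ℝ) + 1 / 2 < s.re} ∧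
      (∀ s : ℂ, (j : ℝ) + 1 ≤ s.re → H s ≠ 0) ∧
      ∀ s : ℂ, (j : ℝ) + 1 < s.re → (s - (j + 1)) ^ R.choose j * LFun j (memberAt 𝓕 ω) s = H s) ∧
    (∀ᵐ ω ∂(prob 𝓕), ∃ G : ℂ → ℂ, DifferentiableOn ℂ G {s | (j : ℝ) + 1 / 2 < s.re} ∧
      (∀ s : ℂ, (j : ℝ) + 1 / 2 < s.re → G s ≠ 0) ∧
      (∀ s : ℂ, (j : ℝ) + 1 < s.re → LPart j (memberAt 𝓕 ω) s = G s) ∧
      NaturalBoundary ((j : ℝ) + 1 / 2) G) ∧
    (∀ A ε : ℝ, 0 < ε → ∃ B : ℝ, 0 < B ∧ ∀ δ : ℝ, 0 < δ → LowerDensity {h : Param 𝓕 |
      ∀ s : ℂ, (j : ℝ) + 1 + δ ≤ s.re → s.re ≤ j + 2 → |s.im| ≤ A →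
        B⁻¹ ≤ ‖(s - (j + 1)) ^ R.choose j * LFun j (members 𝓕 h) s‖ ∧
        ‖(s - (j + 1)) ^ R.choose j * LFun j (members 𝓕 h) s‖ ≤ B} (1 - ε)) ∧
    (∀ B η : ℝ, 0 < B → 0 < η → LowerDensity {h : Param 𝓕 | ¬ ∃ ρ : ℝ, η ≤ |ρ - R.choose j| ∧
      ∀ x : ℝ, 0 < x → x ≤ 1 → B⁻¹ ≤ x ^ ρ * ‖LFun j (members 𝓕 h) ((j : ℂ) + 1 + x)‖ ∧
        x ^ ρ * ‖LFun j (members 𝓕 h) ((j : ℂ) + 1 + x)‖ ≤ B} 1) ∧
    ∃ F : ℕ → Finset (Param 𝓕), IsFolner F := by
  classical
  have hR : 0 < R := hj.trans hjR
  set F : Fin R → Pool.Agent.W5h88.TP.Fam K := fun i => toFam (𝓕 i) with hFd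
  obtain ⟨M, hq, hτ⟩ := Pool.Agent.W5h88.TP.exists_mdp F hj hjR
  have hLf : ∀ (ω : Point 𝓕) (s : ℂ), (j : ℝ) + 1 < s.re →
      HasProd (fun v : {v : HeightOneSpectrum (𝓞 K) // IsGood (memberAt 𝓕 ω) v} =>
        eulerFactor j (memberAt 𝓕 ω) v.1 s) (Complex.exp (Pool.Agent.W5h88.TP.LL F j ω (s - j))) :=
    fun ω s hs => Pool.Agent.W5h88.TP.euler_full F hR j ω hs
  have hLp : ∀ (ω : Point 𝓕) (s : ℂ), (j : ℝ) + 1 < s.re →
      HasProd (fun v : {v : HeightOneSpectrum (𝓞 K) // IsGood (memberAt 𝓕 ω) v} =>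
        eulerPart j (memberAt 𝓕 ω) v.1 s) (Complex.exp (M.Lam ω (s - j))) :=
    fun ω s hs => Pool.Agent.W5h88.TP.euler_part F hR M hq hτ ω hs
  have hred : ∀ h : Param 𝓕, members 𝓕 h = memberAt 𝓕 (integral 𝓕 h) := by
    intro h
    funext i v
    exact Pool.Agent.W5h26.AO.red_mem v (h i)
  have hre : ∀ s : ℂ, (s - j).re = s.re - j := fun s => by
    rw [Complex.sub_re, Complex.natCast_re]
  -- bounds of the members
  have hmem : ∀ A ε : ℝ, 0 < ε → ∃ B : ℝ, 0 ≤ B ∧ ∀ δ : ℝ, 0 < δ → ∀ Fo : ℕ → Finset (Param 𝓕),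
      IsFolner Fo → ∀ᶠ k in atTop, (1 - ε) * ((Fo k).card : ℝ) ≤
        (((Fo k).filter fun h => ∀ w : ℂ, 1 + δ ≤ w.re → w.re ≤ 2 → |w.im| ≤ A →
          |Real.log ‖LFun j (members 𝓕 h) (w + j)‖ + R.choose j * Real.log ‖w - 1‖| ≤ B).card : ℝ) := by
    intro A ε hε
    obtain ⟨B, hB0, hB⟩ := Pool.Agent.W5h88.TP.members F M hq hτ A hε
    refine ⟨B, hB0, fun δ hδ Fo hF => ?_⟩
    filter_upwards [hB δ hδ Fo ⟨hF.1, hF.2⟩] with k hk
    refine hk.trans (Nat.cast_le.2 (Finset.card_le_card fun h hh => ?_))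
    have hh := Finset.mem_filter.1 hh
    refine Finset.mem_filter.2 ⟨hh.1, fun w hw1 hw2 hw3 => ?_⟩
    have h1 := hh.2 w hw1 hw2 hw3
    have h2 : LFun j (members 𝓕 h) (w + j) =
        Complex.exp (Pool.Agent.W5h88.TP.LL F j (integral 𝓕 h) w) := by
      rw [show members 𝓕 h = memberAt 𝓕 (integral 𝓕 h) from hred h]
      have h3 := hLf (integral 𝓕 h) (w + j) (by
        rw [Complex.add_re, Complex.natCast_re]
        linarith)
      rw [add_sub_cancel_right] at h3
      exact h3.tprod_eq
    rw [h2, Complex.norm_exp, Real.log_exp]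
    exact h1
  refine ⟨⟨fun i f => ?_, hred⟩, fun ω s hs => ⟨(hLf ω s hs).multipliable,
    (hLp ω s hs).multipliable⟩, ?_, ?_, ?_, ?_, ?_⟩
  · have h1 := Pool.Agent.W5h26.AO.mem_iff (f := f) (𝓕 i).monic (𝓕 i).degree (𝓕 i).count
      (𝓕 i).injective
    simp only [(𝓕 i).point] at h1
    exact h1
  · filter_upwards [Pool.Agent.W5h88.TP.cont_ae F M hq hτ] with ω hω
    obtain ⟨H, h1, h2, h3⟩ := hω
    refine ⟨fun s => H (s - j), ?_, fun s hs => h2 _ (by rw [hre]; linarith), fun s hs => ?_⟩
    · intro s hs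
      have hs' : (j : ℝ) + 1 / 2 < s.re := hs
      have h4 : DifferentiableAt ℂ H (s - j) := h1.differentiableAt
        ((isOpen_lt continuous_const Complex.continuous_re).mem_nhds (by
          show (1 / 2 : ℝ) < (s - j).re
          rw [hre]
          linarith))
      exact (DifferentiableAt.comp (g := H) (f := fun s : ℂ => s - j) s h4
        (by fun_prop)).differentiableWithinAt
    · have h4 := h3 (s - j) (by rw [hre]; linarith)
      show _ = H (s - j)
      rw [← h4]
      congr 1
      · congr 1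
        ring
      · exact (hLf ω s hs).tprod_eq
  · filter_upwards [M.main_ae] with ω hω
    obtain ⟨G, h1, h2, h3⟩ := hω
    refine ⟨fun s => Complex.exp (G (s - j)), ?_, fun s _ => Complex.exp_ne_zero _, fun s hs => ?_, ?_⟩
    · intro s hs
      have hs' : (j : ℝ) + 1 / 2 < s.re := hs
      have h4 : DifferentiableAt ℂ G (s - j) := h1.differentiableAt
        ((isOpen_lt continuous_const Complex.continuous_re).mem_nhds (by
          show (1 / 2 : ℝ) < (s - j).re
          rw [hre]
          linarith))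
      exact (DifferentiableAt.comp (g := G) (f := fun s : ℂ => s - j) s h4
        (by fun_prop)).cexp.differentiableWithinAt
    · show _ = Complex.exp (G (s - j))
      rw [h2 _ (by rw [hre]; linarith)]
      exact (hLp ω s hs).tprod_eq
    · rintro t ⟨H, hH, hHG⟩
      have e : ((((j : ℝ) + 1 / 2 : ℝ) : ℂ) + t * Complex.I) =
          (((1 / 2 : ℝ) : ℂ) + t * Complex.I) + j := by
        push_cast
        ring
      refine h3 t ⟨fun w => H (w + j), ?_, ?_⟩
      · rw [e] at hH
        exact hH.comp_analyticAt (g := fun w : ℂ => w + j) (by fun_prop)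
      · have h4 : Tendsto (fun w : ℂ => w + j) (𝓝 (((1 / 2 : ℝ) : ℂ) + t * Complex.I))
            (𝓝 ((((j : ℝ) + 1 / 2 : ℝ) : ℂ) + t * Complex.I)) := by
          rw [e]
          exact (continuous_id.add continuous_const).tendsto _
        filter_upwards [h4.eventually hHG] with w hw hwb
        have h5 : (j : ℝ) + 1 / 2 < (w + j).re := by
          rw [Complex.add_re, Complex.natCast_re]
          linarith
        rw [hw h5, add_sub_cancel_right]
  · intro A ε hε
    obtain ⟨B, hB0, hB⟩ := hmem A ε hε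
    refine ⟨Real.exp B, Real.exp_pos _, fun δ hδ => lower_of fun ε' hε' =>
      ⟨fun h => ∀ w : ℂ, 1 + δ ≤ w.re → w.re ≤ 2 → |w.im| ≤ A →
          |Real.log ‖LFun j (members 𝓕 h) (w + j)‖ + R.choose j * Real.log ‖w - 1‖| ≤ B,
        fun h hh => ?_, fun Fo hF => ?_⟩⟩
    rotate_left
    · filter_upwards [hB δ hδ Fo hF] with k hk
      refine le_trans (mul_le_mul_of_nonneg_right ?_ (Nat.cast_nonneg _)) hk
      linarith
    intro s hs1 hs2 hs3
    have h1 := hh (s - j) (by rw [hre]; linarith) (by rw [hre]; linarith) (by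
      rw [Complex.sub_im, Complex.natCast_im, sub_zero]
      exact hs3)
    rw [sub_add_cancel] at h1
    have hne : s - (j + 1) ≠ 0 := by
      intro h2
      have h3 := congrArg Complex.re h2
      simp at h3
      linarith
    have hL0 : LFun j (members 𝓕 h) s ≠ 0 := by
      rw [hred]
      have h3 := hLf (integral 𝓕 h) s (by linarith)
      show ∏' v, _ ≠ (0 : ℂ)
      rw [h3.tprod_eq]
      exact Complex.exp_ne_zero _
    have e1 : s - j - 1 = s - (j + 1) := by ring
    rw [e1] at h1
    have hpos : 0 < ‖(s - (j + 1)) ^ R.choose j * LFun j (members 𝓕 h) s‖ :=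
      norm_pos_iff.2 (mul_ne_zero (pow_ne_zero _ hne) hL0)
    have h4 : Real.log ‖(s - (j + 1)) ^ R.choose j * LFun j (members 𝓕 h) s‖ =
        Real.log ‖LFun j (members 𝓕 h) s‖ + R.choose j * Real.log ‖s - (j + 1)‖ := by
      rw [norm_mul, norm_pow, Real.log_mul (pow_ne_zero _ (norm_ne_zero_iff.2 hne))
        (norm_ne_zero_iff.2 hL0), Real.log_pow]
      ring
    rw [← h4, abs_le] at h1
    constructor
    · rw [← Real.exp_neg, ← Real.le_log_iff_exp_le hpos]
      exact h1.1
    · rw [← Real.log_le_iff_le_exp hpos]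
      exact h1.2
  · intro B η hB hη
    refine lower_of fun ε hε => ?_
    obtain ⟨B₁, hB₁, hB₁'⟩ := hmem 0 ε hε
    set δ : ℝ := Real.exp (-((B₁ + |Real.log B| + 1) / η)) with hδd
    have hδ : 0 < δ := Real.exp_pos _
    have hδ1 : δ < 1 := by
      rw [hδd, Real.exp_lt_one_iff]
      have : 0 < (B₁ + |Real.log B| + 1) / η := by positivity
      linarith
    refine ⟨_, fun h hh => ?_, hB₁' δ hδ⟩
    rintro ⟨ρ, hρ, hx⟩
    obtain ⟨h1, h2⟩ := hx δ hδ hδ1.le
    have e1 : ((1 + δ : ℝ) : ℂ) + j = (j : ℂ) + 1 + δ := by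
      push_cast
      ring
    have h3 := hh ((1 + δ : ℝ) : ℂ) (by simp) (by simp; linarith) (by simp)
    rw [e1] at h3
    have e2 : ((1 + δ : ℝ) : ℂ) - 1 = (δ : ℂ) := by
      push_cast
      ring
    rw [e2, Complex.norm_real, Real.norm_eq_abs, abs_of_pos hδ] at h3
    set L : ℝ := ‖LFun j (members 𝓕 h) ((j : ℂ) + 1 + δ)‖ with hL
    have hL0 : 0 < L := by
      rw [hL, norm_pos_iff, hred]
      have h4 := hLf (integral 𝓕 h) ((j : ℂ) + 1 + δ) (by simp; exact hδ)
      show ∏' v, _ ≠ (0 : ℂ)
      rw [h4.tprod_eq]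
      exact Complex.exp_ne_zero _
    have hδρ : 0 < δ ^ ρ := Real.rpow_pos_of_pos hδ ρ
    have h4 : |Real.log L + ρ * Real.log δ| ≤ |Real.log B| := by
      have e3 : Real.log L + ρ * Real.log δ = Real.log (δ ^ ρ * L) := by
        rw [Real.log_mul hδρ.ne' hL0.ne', Real.log_rpow hδ]
        ring
      rw [e3, abs_le]
      have h5 := Real.log_le_log (inv_pos.2 hB) h1
      have h6 := Real.log_le_log (mul_pos hδρ hL0) h2
      rw [Real.log_inv] at h5
      have h7 := le_abs_self (Real.log B)
      constructor <;> linarith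
    have hlog : Real.log δ = -((B₁ + |Real.log B| + 1) / η) := by
      rw [hδd, Real.log_exp]
    have h5 : |(ρ - R.choose j) * Real.log δ| ≤ B₁ + |Real.log B| := by
      have e3 : (ρ - R.choose j) * Real.log δ = (Real.log L + ρ * Real.log δ) -
          (Real.log L + R.choose j * Real.log δ) := by ring
      rw [e3]
      refine (abs_sub _ _).trans ?_
      linarith
    rw [abs_mul, hlog, abs_neg, abs_of_pos (show 0 < (B₁ + |Real.log B| + 1) / η by positivity)] at h5
    have h6 : B₁ + |Real.log B| + 1 ≤ |ρ - R.choose j| * ((B₁ + |Real.log B| + 1) / η) := by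
      calc B₁ + |Real.log B| + 1 = η * ((B₁ + |Real.log B| + 1) / η) := by field_simp
        _ ≤ |ρ - R.choose j| * ((B₁ + |Real.log B| + 1) / η) :=
          mul_le_mul_of_nonneg_right hρ (by positivity)
    linarith
  · obtain ⟨Fo, hFo⟩ := Pool.Agent.W5h26.AO.exists_folner (Param 𝓕)
    exact ⟨Fo, hFo.nonempty, hFo.shift⟩

end Pool.Agent.Results.MP_223b32_ag.ProductsInFamilies
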